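import Pool.Agent.Q46.PermIrr

/-!
# Primality of permanental ideals: the generic and the symmetric type

`permIdeal t X` is the ideal generated by the permanents of all `t × t` submatrices of `X`.
Over a field in which `2 ≠ 0` (in particular over every field of odd characteristic) and for
`t ≥ 2`:

* for the generic `m × n` matrix the ideal is prime if and only if `t = m = n`;
* for the generic symmetric `n × n` matrix the ideal is prime if and only if `t = n`.

Proof of the new direction. Let `A` be the top left `t × t` block and `y` the first `t` entries of
one further row. Replacing a row of `A` by `y` gives a `t × t` submatrix, so `M(A) y` vanishes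
modulo the ideal, `M(A)` being the matrix of permanental cofactors of `A`. If the ideal is prime
then `det M(A)` belongs to it. Put `A = [1 - t, 1; 1, I]` (an arrow) and all other entries equal to
zero: all generators vanish, but `M(A)` has the entries `1` outside the diagonal and
`(1, -1, …, -1)` on it, so that `det M(A) ≠ 0`.
-/

set_option autoImplicit false

namespace Pool.Agent.Results.MP_9bc296_ag.GenericAndSymmetric

open Pool.Agent.Q46.PI

theorem result (k : Type) [Field k] (h2 : (2 : k) ≠ 0) :
    (∀ m n t : ℕ, 2 ≤ t → t ≤ m → t ≤ n →
      ((permIdeal t (genericMatrix k m n)).IsPrime ↔ t = m ∧ t = n)) ∧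
    (∀ n t : ℕ, 2 ≤ t → t ≤ n →
      ((permIdeal t (symmetricMatrix k n)).IsPrime ↔ t = n)) :=
  ⟨fun _ _ _ ht hm hn => generic_iff k h2 ht hm hn, fun _ _ ht hn => symmetric_iff k h2 ht hn⟩

end Pool.Agent.Results.MP_9bc296_ag.GenericAndSymmetric
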